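import Pool.Agent.X39.Near.Mhz

/-!
# Linear independence of multiple Hurwitz zeta values at ALL algebraic points close to any number outside a set of dimension zero

The multiple zeta values `ζ(s)` are the values at `z = 1` of the functions `ζ(s; z)`: the sums of
`1 / ((z + n₁) ^ s₁ ⋯ (z + n_k) ^ s_k)` over `0 ≤ n₁ < ⋯ < n_k` (`mhz`). For `z` in place of `1` we prove, outside ONE set `E`
of complex numbers of Hausdorff dimension `0` (for all weights, finite sets of admissible indices, number fields, degrees and
scales), that for every complex `x` the values `ζ(s; t)`, of any set of admissible indices `s`, at ALL algebraic points `t` of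
a number field close to `x`, are linearly independent over the ring generated by arbitrary constants `ξ_i`, in bounded degree
and polynomial height, even approximately. So the dimensions that replace those of Zagier's conjecture (`2 ^ (n - 2)` in
weight `n ≥ 2`) are the right ones up to height `T ^ A`, for every `A`.

Proof: the algebra of the functions `ζ(s; z)` is generated by functions algebraically independent over `ℂ(z)`, the `ζ(s; z)`
being linearly independent polynomials in them (`Pool.Agent.X142.MZ`); the levels of the library give, on compact sets, at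
most `C T ^ ε` exceptional points of height `T`, for every `ε > 0`, and so a limsup set of dimension `0`
(`Pool.Agent.X39.Near`); the countably many finite sets of indices are treated at the same time.
-/

set_option autoImplicit false

open MvPolynomial NumberField

namespace Pool.Agent.Results.MP_56e040_nt.ApproximationsOfAllNumbers

open Pool.Agent.X39.Near (Size)
open Pool.Agent.X142.MZ (mhz Adm)

/-- The numbers `ζ(s; t)`, `s ∈ I`, are independent up to degree `d`, height `T ^ A` and precision `T ^ (-B)`: for all
polynomials `c_s` of degree at most `d` in each of the variables `X_1, …, X_g`, with coefficients in the integers of `F` all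
of whose conjugates are at most `T ^ A`, the absolute value of `∑ c_s(ξ) ζ(s; t)` is at least `T ^ (-B)` times that of each
`c_s(ξ)`. -/
def Independent {g : ℕ} (ξ : Fin g → ℂ) (I : Finset (List ℕ)) (F : Type) [Field F] [NumberField F] (ι : F →+* ℂ)
    (d : ℕ) (A B T : ℝ) (t : F) : Prop :=
  ∀ c : List ℕ → MvPolynomial (Fin g) (𝓞 F), (∀ s ∈ I, ∀ v, (c s).degreeOf v ≤ d) →
    (∀ s ∈ I, ∀ m (φ : F →+* ℂ), ‖φ ((c s).coeff m : 𝓞 F)‖ ≤ T ^ A) → ∀ s₀ ∈ I,
    T ^ (-B) * ‖eval₂ (ι.comp (algebraMap (𝓞 F) F)) ξ (c s₀)‖ ≤
      ‖∑ s ∈ I, eval₂ (ι.comp (algebraMap (𝓞 F) F)) ξ (c s) * mhz s (ι t)‖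

/-- **Theorem.** Let `ξ_1, …, ξ_g` be complex numbers. There is a set `E` of complex numbers of Hausdorff dimension `0` such
that for all finite sets `I` of admissible indices: (1) for all complex `x` outside `E`, all number fields `F` with an
embedding `ι` in `ℂ`, all `d`, `A` and `ω > 0` there are `B`, `T₁` such that for all `T ≥ T₁` and all `t ∈ F`, quotients of
integers with conjugates at most `T`, with `|ι t - x| ≤ T ^ (-ω)`, the numbers `ζ(s; t)`, `s ∈ I`, are independent; (2) for
all real `x` outside `E` and all `d`, `A` there is `B` such that they are independent over `ℚ` at the convergents `t` of `x`,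
at the level of the denominator, from some point on. -/
theorem result {g : ℕ} (ξ : Fin g → ℂ) :
    ∃ E : Set ℂ, dimH E = 0 ∧ ∀ I : Finset (List ℕ), (∀ s ∈ I, Adm s) →
      (∀ x : ℂ, x ∉ E → ∀ (F : Type) [Field F] [NumberField F] (ι : F →+* ℂ)
        (d A : ℕ) (ω : ℝ), 0 < ω → ∃ B T₁ : ℝ, ∀ T : ℝ, T₁ ≤ T → ∀ t : F, Size F T t →
          ‖ι t - x‖ ≤ T ^ (-ω) → Independent ξ I F ι d A B T t) ∧
      ∀ x : ℝ, (x : ℂ) ∉ E → ∀ d A : ℕ, ∃ (B : ℝ) (n₀ : ℕ), ∀ k : ℕ,
        n₀ ≤ k → Independent ξ I ℚ (algebraMap ℚ ℂ) d A B (x.convergent k).den (x.convergent k) := by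
  obtain ⟨E, h1, -, h2⟩ := Pool.Agent.X39.Near.mhz_lin ξ
  exact ⟨E, h1, h2⟩

end Pool.Agent.Results.MP_56e040_nt.ApproximationsOfAllNumbers
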