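import Mathlib
import Pool.Agent.X90.DE.Main

/-!
# MP_56e040_nt: the relations between the values with one large argument count the dimensions of `Z_0, …, Z_W`

Fix `W` and consider the multiple zeta values of large weight `k` with an argument at least `k - W`,
`ζ(q, k - |q| - |r|, r)` with `q` admissible (or empty) and `|q| + |r| ≤ W`. Their number is `∑_{n ≤ W} 2 ^ (W - n) a_n`,
where `a_n` is the number of admissible indices of weight `n` (`a_0 = 1`, `a_1 = 0`, `a_n = 2 ^ (n - 2)`). The relations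
between the values of a small weight `n ≤ W` yield relations between them: multiply with `ζ(k - n - |r|, r)`.

Theorem.
(1) For almost all `k` (all but a bounded number of the `k ∈ [N, κ N]`, for all large `N`) there are no other relations
with integer coefficients of absolute value at most `C ^ k`; precisely, these relations span a space of dimension
`∑_{n ≤ W} 2 ^ (W - n) (a_n - dim Z_n)`.
(2) Zagier's formula `dim Z_n = d_n` holds for all `n ≤ W` if and only if for each `V ≤ W` and almost all `k` the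
relations with coefficients at most `C ^ k` between the values of weight `k` with an argument at least `k - V` span a
space of dimension `∑_{n ≤ V} 2 ^ (V - n) (a_n - d_n)`. So Q1 is equivalent to a statement about these relations for
almost all `k`. For example `dim Z_5 = 2` if and only if this dimension is `16` for `V = 5` and almost all `k`.
(3) For almost all `k` the `28` values of weight `k` with an argument at least `k - 4` have exactly `5` independent
relations with coefficients at most `C ^ k`.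

Proof (`Pool/Agent/X90/DE`): a word with a fixed part `q` is expanded with the stuffle product into
`∑ ± ζ(p) ζ(v)` with initial segments `p` of `q` and words `v` that begin with the large letter; the expansion is a
bijection on the coefficients (evaluation of the quasi-symmetric functions in finitely many variables), and by the
elimination of `Pool/Agent/X90/DD/Lin` a relation of bounded height splits for almost all `k` into relations
`∑ c_p ζ(p) = 0`, one for each `v`.
-/

set_option autoImplicit false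

namespace Pool.Agent.Results.MP_56e040_nt.OneLargeArgument

/-- `trunc [s_1, ..., s_r] m` is the sum of `∏ n_i ^ (-s_i)` over `m > n_1 > ... > n_r ≥ 1` -/
noncomputable def trunc : List ℕ → ℕ → ℝ
  | [], _ => 1
  | s :: l, m => ∑ j ∈ Finset.Ico 1 m, trunc l j / (j : ℝ) ^ s

/-- the multiple zeta value `ζ(s_1, ..., s_r)`, the sum of `∏ n_i ^ (-s_i)` over
`n_1 > ... > n_r ≥ 1`; `ζ() = 1` -/
noncomputable def mzv : List ℕ → ℝ
  | [] => 1
  | s :: l => ∑' m : ℕ, trunc l (m + 1) / ((m + 1 : ℕ) : ℝ) ^ s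

/-- admissible indices: the empty index and `(s_1, ..., s_r)` with `s_1 ≥ 2` and all `s_i ≥ 1` -/
def Admissible : List ℕ → Prop
  | [] => True
  | s :: l => 2 ≤ s ∧ ∀ t ∈ l, 1 ≤ t

/-- the `ℚ`-span `Z_n` of the multiple zeta values of weight `n` -/
noncomputable def Z (n : ℕ) : Submodule ℚ ℝ :=
  Submodule.span ℚ (mzv '' {p | Admissible p ∧ p.sum = n})

/-- the number of admissible indices of weight `n` -/
def numIndices : ℕ → ℕ
  | 0 => 1
  | 1 => 0
  | n + 2 => 2 ^ n

/-- the numbers `d_n` -/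
def d : ℕ → ℕ
  | 0 => 1
  | 1 => 0
  | 2 => 1
  | n + 3 => d n + d (n + 1)

/-- the `ℚ`-space spanned by the relations `∑ c_w ζ(w) = 0` with integers `c_w` of absolute value at
most `H` between the multiple zeta values of weight `k` with an argument at least `k - W` -/
noncomputable def relationSpace (W k : ℕ) (H : ℝ) : Submodule ℚ (List ℕ →₀ ℚ) :=
  Submodule.span ℚ {c | (∀ w ∈ c.support, Admissible w ∧ w.sum = k ∧ ∃ t ∈ w, k ≤ t + W) ∧
    (∀ w, ∃ z : ℤ, c w = z ∧ |(z : ℝ)| ≤ H) ∧ c.sum (fun w x => (x : ℝ) * mzv w) = 0}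

/-- for all `κ` there is `K` such that for all `C > 1`, all sufficiently large `N` and all but at most
`K` of the `k ∈ [N, κ N]` the relations with coefficients of absolute value at most `C ^ k` between
the multiple zeta values of weight `k` with an argument at least `k - W` span a space of dimension
`D` -/
def AlmostDimension (W D : ℕ) : Prop :=
  ∀ κ : ℕ, ∃ K : ℕ, ∀ C : ℝ, 1 < C → ∃ N0 : ℕ, ∀ N : ℕ, N0 ≤ N →
    {k : ℕ | (N ≤ k ∧ k ≤ κ * N) ∧ Module.finrank ℚ (relationSpace W k (C ^ k)) ≠ D}.ncard ≤ K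

open Finset
open Pool.Agent.X90.DB (Ad)
open Pool.Agent.X90.DD (WS)

theorem trunc_eq : ∀ l m, trunc l m = Pool.Agent.Y760.ZG.hr l m := by
  intro l
  induction l with
  | nil => intro m; rw [trunc, Pool.Agent.Y760.ZG.hr]
  | cons s l ih =>
    intro m
    rw [trunc, Pool.Agent.Y760.ZG.hr]
    exact Finset.sum_congr rfl fun j _ => by rw [ih]

theorem mzv_eq : ∀ l, mzv l = Pool.Agent.Y760.ZG.mz l := by
  intro l
  cases l with
  | nil => rw [mzv, Pool.Agent.Y760.ZG.mz]
  | cons s l =>
    rw [mzv, Pool.Agent.Y760.ZG.mz]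
    exact tsum_congr fun k => by rw [trunc_eq]

theorem adm_iff : ∀ u, Admissible u ↔ (u = [] ∨ Ad u) := by
  intro u
  cases u with
  | nil => exact ⟨fun _ => Or.inl rfl, fun _ => trivial⟩
  | cons a l => exact ⟨fun h => Or.inr h, fun h => h.resolve_left (List.cons_ne_nil _ _)⟩

theorem Z_eq (n : ℕ) : Z n = WS n := by
  rw [Z, WS]
  have h1 : mzv = Pool.Agent.Y760.ZG.mz := funext mzv_eq
  have h2 : {p : List ℕ | Admissible p ∧ p.sum = n} = {p | (p = [] ∨ Ad p) ∧ p.sum = n} := by
    ext p
    rw [Set.mem_ofPred_eq, Set.mem_ofPred_eq, adm_iff]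
  rw [h1, h2]

theorem num_eq : ∀ n, numIndices n = Pool.Agent.X90.DE.na n
  | 0 => rfl
  | 1 => rfl
  | _ + 2 => rfl

theorem rel_eq (W k : ℕ) (H : ℝ) : relationSpace W k H = Pool.Agent.X90.DE.relS W k H := by
  rw [relationSpace, Pool.Agent.X90.DE.relS]
  simp only [mzv_eq, adm_iff, Pool.Agent.X90.DE.Fam]

theorem finrank_le (n : ℕ) : Module.finrank ℚ (WS n) ≤ Pool.Agent.X90.DE.na n := by
  classical
  rw [Pool.Agent.X90.DE.WS_eq, ← Pool.Agent.X90.DE.card_ad]
  exact (finrank_span_finset_le_card _).trans card_image_le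

theorem almost (W : ℕ) : AlmostDimension W
    (∑ n ∈ range (W + 1), 2 ^ (W - n) * (numIndices n - Module.finrank ℚ (Z n))) := by
  classical
  intro κ
  obtain ⟨K, hK⟩ := Pool.Agent.X90.DE.main W κ
  refine ⟨K, fun C hC => ?_⟩
  obtain ⟨N0, hN0⟩ := hK C hC
  refine ⟨N0, fun N hN => ?_⟩
  have hfin : {k : ℕ | (N ≤ k ∧ k ≤ κ * N) ∧ Module.finrank ℚ (relationSpace W k (C ^ k)) ≠
      ∑ n ∈ range (W + 1), 2 ^ (W - n) * (numIndices n - Module.finrank ℚ (Z n))}.Finite := by
    refine (Finset.Icc N (κ * N)).finite_toSet.subset ?_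
    rintro s ⟨hs, -⟩
    exact Finset.mem_coe.2 (Finset.mem_Icc.2 hs)
  rw [Set.ncard_eq_toFinset_card _ hfin]
  refine hN0 N hN hfin.toFinset fun k hk => ?_
  rw [Set.Finite.mem_toFinset] at hk
  obtain ⟨hk1, hk2⟩ := hk
  refine ⟨hk1, fun h => hk2 ?_⟩
  rw [rel_eq]
  have h1 : ∑ n ∈ range (W + 1), 2 ^ (W - n) * (numIndices n - Module.finrank ℚ (Z n)) +
      ∑ n ∈ range (W + 1), 2 ^ (W - n) * Module.finrank ℚ (WS n) =
      ∑ n ∈ range (W + 1), 2 ^ (W - n) * Pool.Agent.X90.DE.na n := by
    rw [← sum_add_distrib]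
    refine sum_congr rfl fun n _ => ?_
    rw [← mul_add, Z_eq, num_eq]
    congr 1
    have := finrank_le n
    omega
  omega

theorem almost_unique {V D D' : ℕ} (h : AlmostDimension V D) (h' : AlmostDimension V D') :
    D = D' := by
  by_contra hne
  obtain ⟨K, hK⟩ := h 2
  obtain ⟨K', hK'⟩ := h' 2
  obtain ⟨N0, hN0⟩ := hK 2 one_lt_two
  obtain ⟨N0', hN0'⟩ := hK' 2 one_lt_two
  set N := N0 + N0' + K + K' with hN
  have h1 := hN0 N (by omega)
  have h2 := hN0' N (by omega)
  have h3 : ((Finset.Icc N (2 * N) : Finset ℕ) : Set ℕ) ⊆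
      {k : ℕ | (N ≤ k ∧ k ≤ 2 * N) ∧ Module.finrank ℚ (relationSpace V k (2 ^ k)) ≠ D} ∪
      {k : ℕ | (N ≤ k ∧ k ≤ 2 * N) ∧ Module.finrank ℚ (relationSpace V k (2 ^ k)) ≠ D'} := by
    intro k hk
    have hk' := Finset.mem_Icc.1 (Finset.mem_coe.1 hk)
    by_cases h4 : Module.finrank ℚ (relationSpace V k (2 ^ k)) = D
    · exact Or.inr ⟨hk', fun h5 => hne (h4.symm.trans h5)⟩
    · exact Or.inl ⟨hk', h4⟩
  have hfin : ∀ D : ℕ, {k : ℕ | (N ≤ k ∧ k ≤ 2 * N) ∧
      Module.finrank ℚ (relationSpace V k (2 ^ k)) ≠ D}.Finite := by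
    intro D
    refine (Finset.Icc N (2 * N)).finite_toSet.subset ?_
    rintro s ⟨hs, -⟩
    exact Finset.mem_coe.2 (Finset.mem_Icc.2 hs)
  have h4 := (Set.ncard_le_ncard h3 ((hfin D).union (hfin D'))).trans (Set.ncard_union_le _ _)
  rw [Set.ncard_coe_finset, Nat.card_Icc] at h4
  omega

theorem d_le : ∀ n, d n ≤ Pool.Agent.X90.DE.na n
  | 0 => le_rfl
  | 1 => le_rfl
  | 2 => le_rfl
  | n + 3 => by
    have h1 := d_le n
    have h2 := d_le (n + 1)
    have hn : ∀ n, Pool.Agent.X90.DE.na n ≤ 2 ^ n := by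
      intro n
      match n with
      | 0 => exact le_rfl
      | 1 => exact Nat.zero_le _
      | n + 2 => exact Nat.pow_le_pow_right (by norm_num) (by omega)
    have h3 := hn n
    have h4 : Pool.Agent.X90.DE.na (n + 1) ≤ 2 ^ n := by
      match n with
      | 0 => exact Nat.zero_le _
      | n + 1 => exact Nat.pow_le_pow_right (by norm_num) (by omega)
    show d n + d (n + 1) ≤ 2 ^ (n + 1)
    rw [pow_succ]
    omega

theorem zagier_iff (W : ℕ) : (∀ n ≤ W, Module.finrank ℚ (Z n) = d n) ↔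
    ∀ V ≤ W, AlmostDimension V (∑ n ∈ range (V + 1), 2 ^ (V - n) * (numIndices n - d n)) := by
  constructor
  · intro h V hV
    have h1 := almost V
    have h2 : ∑ n ∈ range (V + 1), 2 ^ (V - n) * (numIndices n - Module.finrank ℚ (Z n)) =
        ∑ n ∈ range (V + 1), 2 ^ (V - n) * (numIndices n - d n) := by
      refine sum_congr rfl fun n hn => ?_
      rw [mem_range] at hn
      rw [h n (by omega)]
    rwa [h2] at h1
  · intro h n
    induction n using Nat.strong_induction_on with
    | _ n ih =>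
      intro hn
      have h1 := almost_unique (almost n) (h n hn)
      rw [sum_range_succ, sum_range_succ, Nat.sub_self, pow_zero, one_mul, one_mul] at h1
      have h2 : ∑ m ∈ range n, 2 ^ (n - m) * (numIndices m - Module.finrank ℚ (Z m)) =
          ∑ m ∈ range n, 2 ^ (n - m) * (numIndices m - d m) := by
        refine sum_congr rfl fun m hm => ?_
        rw [mem_range] at hm
        rw [ih m hm (by omega)]
      rw [h2, add_right_inj, num_eq] at h1
      have h3 := finrank_le n
      have h4 := d_le n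
      rw [Z_eq] at h1 ⊢
      omega

theorem finrank_one {n : ℕ} {y : ℝ} (hy : y ∈ WS n) (hy0 : y ≠ 0)
    (h : ∀ x ∈ WS n, ∃ q : ℚ, x = q * y) : Module.finrank ℚ (WS n) = 1 := by
  rw [finrank_eq_one_iff']
  refine ⟨⟨y, hy⟩, fun h0 => hy0 (congrArg Subtype.val h0), fun x => ?_⟩
  obtain ⟨q, hq⟩ := h x.1 x.2
  refine ⟨q, ?_⟩
  ext
  rw [hq]
  exact Rat.smul_def q y

theorem WS_four {x : ℝ} (hx : x ∈ WS 4) : ∃ q : ℚ, x = q * Pool.Agent.Y760.ZG.mz [4] := by
  have h1 : WS 4 ≤ Submodule.span ℚ {Pool.Agent.Y760.ZG.mz [4]} := by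
    rw [WS, Submodule.span_le]
    rintro _ ⟨p, ⟨hp, h0⟩, rfl⟩
    rw [SetLike.mem_coe, Submodule.mem_span_singleton]
    rcases hp with rfl | hp
    · simp at h0
    · rcases Pool.Agent.X90.DD.ad_four hp h0 with rfl | rfl | rfl | rfl
      · exact ⟨1, one_smul _ _⟩
      · refine ⟨1 / 4, ?_⟩
        rw [← Pool.Agent.X90.DD.mz_31, Rat.smul_def]
        push_cast
        ring
      · refine ⟨3 / 4, ?_⟩
        have h2 := Pool.Agent.X90.DD.mz_22
        rw [Rat.smul_def]
        push_cast
        linarith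
      · refine ⟨1, ?_⟩
        rw [Pool.Agent.X90.DD.mz_211, one_smul]
  obtain ⟨q, rfl⟩ := Submodule.mem_span_singleton.1 (h1 hx)
  exact ⟨q, by rw [Rat.smul_def]⟩

theorem almost_four : AlmostDimension 4 5 := by
  have h1 := almost 4
  have hm : ∀ a, 2 ≤ a → Pool.Agent.Y760.ZG.mz [a] ∈ WS a ∧ Pool.Agent.Y760.ZG.mz [a] ≠ 0 := by
    intro a ha
    refine ⟨Pool.Agent.X90.DE.mz_mem (Or.inr ⟨ha, by simp⟩) (by simp), ?_⟩
    exact (Pool.Agent.X90.DD.mz_pos ha).ne'
  have e0 : Module.finrank ℚ (Z 0) = 1 := by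
    rw [Z_eq]
    refine finrank_one (y := 1) ?_ one_ne_zero fun x hx => ?_
    · have := Pool.Agent.X90.DE.mz_mem (p := []) (n := 0) (Or.inl rfl) rfl
      rwa [Pool.Agent.Y760.ZG.mz] at this
    · obtain ⟨q, hq⟩ := Pool.Agent.X90.DD.WS_zero hx
      exact ⟨q, by rw [hq, mul_one]⟩
  have e1 : Module.finrank ℚ (Z 1) = 0 := by
    have h2 := finrank_le 1
    rw [Z_eq]
    exact Nat.le_zero.1 h2
  have e2 : Module.finrank ℚ (Z 2) = 1 := by
    rw [Z_eq]
    exact finrank_one (hm 2 le_rfl).1 (hm 2 le_rfl).2 fun x hx => Pool.Agent.X90.DD.WS_two hx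
  have e3 : Module.finrank ℚ (Z 3) = 1 := by
    rw [Z_eq]
    exact finrank_one (hm 3 (by norm_num)).1 (hm 3 (by norm_num)).2
      fun x hx => Pool.Agent.X90.DD.WS_three hx
  have e4 : Module.finrank ℚ (Z 4) = 1 := by
    rw [Z_eq]
    exact finrank_one (hm 4 (by norm_num)).1 (hm 4 (by norm_num)).2 fun x hx => WS_four hx
  have h2 : ∑ n ∈ range (4 + 1), 2 ^ (4 - n) * (numIndices n - Module.finrank ℚ (Z n)) = 5 := by
    simp only [sum_range_succ, sum_range_zero, e0, e1, e2, e3, e4]
    rfl
  rwa [h2] at h1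

/-- **Relations between the values with one large argument.** (1) For all `W` and almost all `k` the
integer relations with coefficients of absolute value at most `C ^ k` between the multiple zeta
values of weight `k` with an argument at least `k - W` span a space of dimension
`∑_{n ≤ W} 2 ^ (W - n) (a_n - dim Z_n)`. (2) `dim Z_n = d_n` for all `n ≤ W` if and only if for all
`V ≤ W` and almost all `k` this dimension (for `V`) is `∑_{n ≤ V} 2 ^ (V - n) (a_n - d_n)`. (3) For
`W = 4` the dimension is `5` for almost all `k`. -/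
theorem result :
    (∀ W : ℕ, AlmostDimension W
      (∑ n ∈ Finset.range (W + 1), 2 ^ (W - n) * (numIndices n - Module.finrank ℚ (Z n)))) ∧
    (∀ W : ℕ, (∀ n ≤ W, Module.finrank ℚ (Z n) = d n) ↔
      ∀ V ≤ W, AlmostDimension V
        (∑ n ∈ Finset.range (V + 1), 2 ^ (V - n) * (numIndices n - d n))) ∧
    AlmostDimension 4 5 :=
  ⟨almost, zagier_iff, almost_four⟩

end Pool.Agent.Results.MP_56e040_nt.OneLargeArgument
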