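import Mathlib
import Pool.Agent.X142.PL.Padic

set_option autoImplicit false

namespace Pool.Agent.Results.MP_56e040_nt.PolylogarithmArguments

open NumberField MvPolynomial

/-- The coefficients of the multiple polylogarithm
`Li_{s₁,…,s_r}(z) = Σ_{n₁ > … > n_r ≥ 1} z^{n₁} / (n₁^{s₁} ⋯ n_r^{s_r})`: the coefficient of `z^n` is
`n^{-s₁}` times the sum over `k < n` of the coefficients for `(s₂,…,s_r)`; `1` for the empty index. -/
def coeffLi : List ℕ → ℕ → ℚ
  | [], n => if n = 0 then 1 else 0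
  | s :: w, n => (∑ k ∈ Finset.range n, coeffLi w k) / (n : ℚ) ^ s

/-- The multiple polylogarithm for `|z| < 1`; its limit at `z = 1` is the multiple zeta value. -/
noncomputable def Li (s : List ℕ) (z : ℂ) : ℂ := ∑' n : ℕ, ((coeffLi s n : ℚ) : ℂ) * z ^ n

/-- `HeightLe F T x`: `x = a / c` with algebraic integers `a`, `c` of `F`, all of whose conjugates are at
most `T` in absolute value. -/
def HeightLe (F : Type) [Field F] [NumberField F] (T : ℝ) (x : F) : Prop :=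
  ∃ a c : 𝓞 F, c ≠ 0 ∧ (∀ φ : F →+* ℂ, ‖φ a‖ ≤ T ∧ ‖φ c‖ ≤ T) ∧ x = a / c

lemma coeffLi_eq : ∀ (s : List ℕ) (n : ℕ), coeffLi s n = Pool.Agent.X142.PL.aa s n
  | [], n => rfl
  | s :: w, n => by
    rw [coeffLi, Pool.Agent.X142.PL.aa]
    simp only [coeffLi_eq w]

lemma Li_eq {s : List ℕ} (hs : ∀ a ∈ s, 1 ≤ a) (z : ℂ) :
    Li s z = Pool.Agent.X142.PL.ev ℂ (Pool.Agent.X142.PL.wd s) z := by
  rw [← Pool.Agent.X142.PL.Li_eq hs]
  unfold Li Pool.Agent.X142.PL.Li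
  simp only [coeffLi_eq]

lemma replicate_inj : ∀ {m n : ℕ} {u v : List Bool},
    List.replicate m false ++ true :: u = List.replicate n false ++ true :: v → m = n ∧ u = v
  | 0, 0, u, v, h => by
    rw [List.replicate_zero, List.nil_append, List.nil_append] at h
    exact ⟨rfl, (List.cons.inj h).2⟩
  | 0, n + 1, u, v, h => by
    rw [List.replicate_zero, List.nil_append, List.replicate_succ, List.cons_append] at h
    exact absurd (List.cons.inj h).1 (by simp)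
  | m + 1, 0, u, v, h => by
    rw [List.replicate_zero, List.nil_append, List.replicate_succ, List.cons_append] at h
    exact absurd (List.cons.inj h).1 (by simp)
  | m + 1, n + 1, u, v, h => by
    rw [List.replicate_succ, List.replicate_succ, List.cons_append, List.cons_append] at h
    obtain ⟨h1, h2⟩ := replicate_inj (List.cons.inj h).2
    exact ⟨by rw [h1], h2⟩

lemma wd_inj : ∀ {s t : List ℕ}, (∀ a ∈ s, 1 ≤ a) → (∀ a ∈ t, 1 ≤ a) →
    Pool.Agent.X142.PL.wd s = Pool.Agent.X142.PL.wd t → s = t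
  | [], [], _, _, _ => rfl
  | [], b :: t, _, _, h => by
    rw [Pool.Agent.X142.PL.wd, Pool.Agent.X142.PL.wd] at h
    simp at h
  | a :: s, [], _, _, h => by
    rw [Pool.Agent.X142.PL.wd, Pool.Agent.X142.PL.wd] at h
    simp at h
  | a :: s, b :: t, hs, ht, h => by
    rw [Pool.Agent.X142.PL.wd, Pool.Agent.X142.PL.wd] at h
    obtain ⟨h1, h2⟩ := replicate_inj h
    have ha := hs a List.mem_cons_self
    have hb := ht b List.mem_cons_self
    have h3 := wd_inj (fun c hc => hs c (List.mem_cons_of_mem _ hc))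
      (fun c hc => ht c (List.mem_cons_of_mem _ hc)) h2
    rw [h3]
    congr 1
    omega

/-- Multiple polylogarithm values at almost all arguments: no small relation. -/
theorem result (I : Finset (List ℕ)) (hI : ∀ s ∈ I, ∀ a ∈ s, 1 ≤ a) (L : Set ℂ) (hL : IsCompact L)
    (hL0 : ∀ z ∈ L, z ≠ 0 ∧ ‖z‖ < 1) (m g : ℕ) (A ε : ℝ) (hε : 0 < ε) :
    ∃ B C₁ T₀ : ℝ, ∀ (F : Type) [Field F] [NumberField F], Module.finrank ℚ F ≤ m →
      ∀ (ι : F →+* ℂ) (ξ : Fin g → ℂ) (T : ℝ), T₀ ≤ T →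
      ∃ X : Finset F, (X.card : ℝ) ≤ C₁ * T ^ ε ∧
        ∀ x : F, ι x ∈ L → HeightLe F T x → x ∉ X →
          ∀ c : List ℕ → Fin g → 𝓞 F, (∀ s ∈ I, ∀ i (φ : F →+* ℂ), ‖φ (c s i)‖ ≤ T ^ A) →
            ∀ s₀ ∈ I, T ^ (-B) * ‖∑ i, ξ i * ι (c s₀ i)‖ ≤
              ‖∑ s ∈ I, (∑ i, ξ i * ι (c s i)) * Li s (ι x)‖ := by
  classical
  have hinj : ∀ s ∈ I, ∀ t ∈ I, Pool.Agent.X142.PL.wd s = Pool.Agent.X142.PL.wd t → s = t :=
    fun s hs t ht h => wd_inj (hI s hs) (hI t ht) h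
  obtain ⟨B, C₁, T₀, H⟩ := Pool.Agent.X142.PL.mainX (I.image Pool.Agent.X142.PL.wd) (fun w hw => by
    obtain ⟨s, -, rfl⟩ := Finset.mem_image.1 hw
    exact Pool.Agent.X142.PL.adm_wd s) L hL hL0 m g A ε hε
  refine ⟨B, C₁, T₀, fun F _ _ hF ι ξ T hT => ?_⟩
  obtain ⟨X, hX, h⟩ := H F hF ι ξ T hT
  refine ⟨X, hX, fun x hxL hx hxX c hc s₀ hs₀ => ?_⟩
  obtain ⟨d, hd⟩ : ∃ d : List Bool → Fin g → 𝓞 F, ∀ s ∈ I, d (Pool.Agent.X142.PL.wd s) = c s := by
    refine ⟨fun w => if h : ∃ s ∈ I, Pool.Agent.X142.PL.wd s = w then c h.choose else 0, fun s hs => ?_⟩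
    have hex : ∃ t ∈ I, Pool.Agent.X142.PL.wd t = Pool.Agent.X142.PL.wd s := ⟨s, hs, rfl⟩
    show (if h : ∃ t ∈ I, Pool.Agent.X142.PL.wd t = Pool.Agent.X142.PL.wd s then c h.choose else 0) = c s
    rw [dif_pos hex, hinj _ hex.choose_spec.1 s hs hex.choose_spec.2]
  have h1 := h x hxL hx hxX d (fun w hw i φ => by
    obtain ⟨s, hs, rfl⟩ := Finset.mem_image.1 hw
    rw [hd s hs]
    exact hc s hs i φ) _ (Finset.mem_image_of_mem _ hs₀)
  rw [hd s₀ hs₀] at h1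
  refine h1.trans (le_of_eq ?_)
  congr 1
  rw [Finset.sum_image fun s hs t ht h => hinj s hs t ht h]
  refine Finset.sum_congr rfl fun s hs => ?_
  rw [hd s hs, Li_eq (hI s hs)]

end Pool.Agent.Results.MP_56e040_nt.PolylogarithmArguments
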