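import Pool.Agent.Results.MP_56e040_nt.OneLargeArgument
import Pool.Agent.X174.WinDim

/-!
# Zagier's dimension conjecture and the relations between multiple zeta values with one large argument, for ALL weights in
windows around thin sequences

Consider the multiple zeta values of weight `k` with an argument at least `k - W`. `InWindows W D` is the statement: for every
sequence `v ≥ 1` of exponent of convergence at most `τ` (for `v_i = (i + 1) ^ a` this is `1 / a`, for `v_i = b ^ i` it is
`0`) and every `ρ < 1` there is a set `E ⊂ ℝ` of Hausdorff dimension at most `τ / (1 - ρ)` such that for each `α > 0` outside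
`E` and each `C > 1`, for all but finitely many `i`: for ALL `k` with `|k - α v_i| ≤ v_i ^ ρ` the relations between these
values with integer coefficients of absolute value at most `C ^ k` span a space of dimension `D`.

(1) This holds for `D = ∑_{n ≤ W} 2 ^ (W - n) (a_n - dim Z_n)`, where `a_n` is the number of admissible indices of weight `n`.
(2) Zagier's formula `dim Z_n = d_n` holds for all `n ≤ W` if and only if `InWindows V (∑_{n ≤ V} 2 ^ (V - n) (a_n - d_n))`
holds for all `V ≤ W`. (3) `InWindows 4 5`: for `v_i = 2 ^ i`, and any `ρ < 1`, for all `α` outside a set of dimension zero,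
for ALL weights in the windows.

The starting point is our result `OneLargeArgument`.
-/

set_option autoImplicit false

namespace Pool.Agent.Results.MP_56e040_nt.WeightsInWindows

open OneLargeArgument (mzv Admissible Z numIndices d relationSpace AlmostDimension)

/-- the exponent of convergence of the sequence `v` is at most `τ` -/
def ExpLe (v : ℕ → ℝ) (τ : ℝ) : Prop := ∀ t : ℝ, τ < t → Summable (fun n : ℕ => (v n) ^ (-t))

/-- for all sequences `v ≥ 1` of exponent of convergence at most `τ` and all `ρ < 1` there is a set `E ⊂ ℝ` of Hausdorff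
dimension at most `τ / (1 - ρ)` such that for all `α > 0` outside `E` and all `C > 1`, for all but finitely many `i`, for ALL
`k` with `|k - α v_i| ≤ v_i ^ ρ` the relations with coefficients of absolute value at most `C ^ k` between the multiple zeta
values of weight `k` with an argument at least `k - W` span a space of dimension `D` -/
def InWindows (W D : ℕ) : Prop :=
  ∀ (v : ℕ → ℝ) (τ ρ : ℝ), (∀ i, 1 ≤ v i) → 0 ≤ τ → ExpLe v τ → ρ < 1 →
    ∃ E : Set ℝ, dimH E ≤ ENNReal.ofReal (τ / (1 - ρ)) ∧ ∀ α : ℝ, 0 < α → α ∉ E → ∀ C : ℝ, 1 < C →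
      ∃ i₀ : ℕ, ∀ i : ℕ, i₀ ≤ i → ∀ k : ℕ, |(k : ℝ) - α * v i| ≤ (v i) ^ ρ →
        Module.finrank ℚ (relationSpace W k (C ^ k)) = D

theorem entries_pos : ∀ w : List ℕ, Admissible w → ∀ t ∈ w, 1 ≤ t
  | [], _, t, ht => absurd ht List.not_mem_nil
  | s :: l, h, t, ht => by
    rcases List.mem_cons.1 ht with rfl | ht
    · exact le_trans (by norm_num) h.1
    · exact h.2 t ht

theorem mono (W k : ℕ) {H H' : ℝ} (hH : H ≤ H') :
    Module.finrank ℚ (relationSpace W k H) ≤ Module.finrank ℚ (relationSpace W k H') := by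
  refine Pool.Agent.X174.finrank_mono_supported (Pool.Agent.X174.finite_lists k) ?_ ?_
  · refine Submodule.span_mono ?_
    rintro c ⟨h1, h2, h3⟩
    refine ⟨h1, fun w => ?_, h3⟩
    obtain ⟨z, hz1, hz2⟩ := h2 w
    exact ⟨z, hz1, hz2.trans hH⟩
  · refine Submodule.span_le.2 ?_
    rintro c ⟨h1, -, -⟩
    refine (Finsupp.mem_supported ℚ c).2 fun w hw => ?_
    obtain ⟨h4, h5, -⟩ := h1 w hw
    exact ⟨entries_pos w h4, h5.le⟩

theorem conv (W : ℕ) (D : ℤ) (c₁ c c₂ : ℝ) (k : ℕ) (h1 : 1 < c₁) (h2 : c₁ ≤ c) (h3 : c ≤ c₂)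
    (h4 : (Module.finrank ℚ (relationSpace W k (c₁ ^ k)) : ℤ) = D)
    (h5 : (Module.finrank ℚ (relationSpace W k (c₂ ^ k)) : ℤ) = D) :
    (Module.finrank ℚ (relationSpace W k (c ^ k)) : ℤ) = D := by
  have h6 := mono W k (pow_le_pow_left₀ (by linarith) h2 k : c₁ ^ k ≤ c ^ k)
  have h7 := mono W k (pow_le_pow_left₀ (by linarith) h3 k : c ^ k ≤ c₂ ^ k)
  omega

theorem alm_iff (W D : ℕ) : AlmostDimension W D ↔
    Pool.Agent.X174.Alm (fun c k => (Module.finrank ℚ (relationSpace W k (c ^ k)) : ℤ)) D := by
  unfold AlmostDimension Pool.Agent.X174.Alm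
  simp only [ne_eq, Nat.cast_inj]

theorem inW_iff (W D : ℕ) : InWindows W D ↔
    Pool.Agent.X174.InW (fun c k => (Module.finrank ℚ (relationSpace W k (c ^ k)) : ℤ)) D := by
  unfold InWindows Pool.Agent.X174.InW ExpLe
  simp only [Nat.cast_inj]

theorem almost_iff (W D : ℕ) : AlmostDimension W D ↔ InWindows W D := by
  rw [alm_iff, inW_iff]
  exact Pool.Agent.X174.alm_iff_inW (conv W) ((alm_iff W _).1 (OneLargeArgument.result.1 W)) D

/-- **Relations between the values with one large argument, for all weights in windows.** (1) For all `W` the integer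
relations with coefficients of absolute value at most `C ^ k` between the multiple zeta values of weight `k` with an argument
at least `k - W` span a space of dimension `∑_{n ≤ W} 2 ^ (W - n) (a_n - dim Z_n)`, for ALL `k` in windows around `α v_i`.
(2) `dim Z_n = d_n` for all `n ≤ W` if and only if for all `V ≤ W` this dimension (for `V`), for ALL `k` in windows, is
`∑_{n ≤ V} 2 ^ (V - n) (a_n - d_n)`. (3) For `W = 4` the dimension is `5`. The sequences `v_i = (i + 1) ^ a` and
`v_i = b ^ i` have exponent of convergence at most `1 / a` and `0`. -/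
theorem result :
    (∀ W : ℕ, InWindows W
      (∑ n ∈ Finset.range (W + 1), 2 ^ (W - n) * (numIndices n - Module.finrank ℚ (Z n)))) ∧
    (∀ W : ℕ, (∀ n ≤ W, Module.finrank ℚ (Z n) = d n) ↔
      ∀ V ≤ W, InWindows V (∑ n ∈ Finset.range (V + 1), 2 ^ (V - n) * (numIndices n - d n))) ∧
    InWindows 4 5 ∧
    (∀ a : ℝ, 0 < a → ExpLe (fun n : ℕ => ((n : ℝ) + 1) ^ a) (1 / a)) ∧
    (∀ b : ℝ, 1 < b → ExpLe (fun n : ℕ => b ^ n) 0) := by
  obtain ⟨h1, h2, h3⟩ := OneLargeArgument.result
  refine ⟨fun W => (almost_iff _ _).1 (h1 W), fun W => ?_, (almost_iff _ _).1 h3,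
    fun κ hκ => Pool.Agent.Y854.GM.expLe_pow κ hκ, fun b hb => Pool.Agent.Y854.GM.expLe_geom b hb⟩
  rw [h2 W]
  exact forall₂_congr fun V _ => almost_iff V _

end Pool.Agent.Results.MP_56e040_nt.WeightsInWindows
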